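import Pool.Agent.W2helper17.PF.Final2

/-!
# MP_976e2b_nt: patching Galois representations from fields of coprime degrees

`K` is a number field, `G_K = Gal(K̄/K)`, `F` a Hausdorff topological field (for instance a completion
of the field of coefficients), `P v` the polynomial prescribed at `v ∉ T` (for an eigenclass `θ`:
`X² - a_v X + b_v N v`). For a finite extension `L` of `K` in `K̄`, `G_L = L.fixingSubgroup`.
`Attached T P ρ`: `ρ` is a continuous representation of `G_L` with `charpoly (ρ Frob_v) = P v` for all
`v ∉ T` and all Frobenius elements at `v` in `G_L`.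
`Patch K' B L`: if `ρ'` over `K'` and `r i` over `L i` are attached to `P` and `ρ'` is absolutely
irreducible on `G_{BK'}`, then there is `ρ` over `K` attached to `P` (and more: see `Patches`).
-/

set_option autoImplicit false

namespace Pool.Agent.Results.MP_976e2b_nt.PatchingCoprimeDegrees

open Pool.Agent.W401.Cheb Pool.Agent.W2helper17.PF.S

/-- Representations patch if they are given over subfields `K'`, `L i` of a finite Galois extension
`E / K` whose degrees over `K` have no common divisor, and such that every element of `G_K` fixes a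
conjugate of `K'` or of some `L i`. In particular two fields suffice: a quadratic field `K'` and a cubic
field `L` whose Galois closure contains `K'`, or a quartic field `K₄` and a cubic field `K₃` contained in
the Galois closure of `K₄`. -/
theorem result (K : Type) [Field K] [NumberField K] :
    (∀ (K' E : Ext K) (ι : Type) (L : ι → Ext K), IsGal E → K' ≤ E → (∀ i, L i ≤ E) →
      (∀ σ : GK K, FixesConj σ K' ∨ ∃ i, FixesConj σ (L i)) →
      (∀ d : ℕ, d ∣ deg K' → (∀ i, d ∣ deg (L i)) → d = 1) → Patch K' E L) ∧
    (∀ K' L : Ext K, deg K' = 2 → deg L = 3 → K' ≤ gclosure L →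
      Patch K' L (fun _ : Unit => L)) ∧
    ∀ K₃ K₄ : Ext K, deg K₃ = 3 → deg K₄ = 4 → K₃ ≤ gclosure K₄ →
      Patch K₄ (gclosure K₄) (fun _ : Unit => K₃) := by
  refine ⟨?_, ?_, ?_⟩
  · rintro K' E ι L ⟨_, _⟩ hK' hL hcov hgcd
    exact patch_of (Pool.Agent.W2helper17.PF.patch_coprime K K' E L hK' hL hcov hgcd)
  · intro K' L h2 h3 hc
    exact patch_of (Pool.Agent.W2helper17.PF.patch_cubic K K' L h2 h3 hc)
  · intro K₃ K₄ h3 h4 hc
    exact patch_of (Pool.Agent.W2helper17.PF.patch_quartic K K₃ K₄ h3 h4 hc)

end Pool.Agent.Results.MP_976e2b_nt.PatchingCoprimeDegrees
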