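import Pool.Agent.W2helper17.PF.Final2

/-!
# MP_976e2b_nt: patching Galois representations from finitely many fields, one of them disjoint

`K` is a number field, `G_K = Gal(K̄/K)`, `F` a Hausdorff topological field (for instance a completion
of the field of coefficients), `P v` the polynomial prescribed at `v ∉ T` (for an eigenclass `θ`:
`X² - a_v X + b_v N v`). For a finite extension `L` of `K` in `K̄`, `G_L = L.fixingSubgroup`.
`Attached T P ρ`: `ρ` is a continuous representation of `G_L` with `charpoly (ρ Frob_v) = P v` for all
`v ∉ T` and all Frobenius elements at `v` in `G_L`.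
`Patch K' B L`: if `ρ'` over `K'` and `r i` over `L i` are attached to `P` and `ρ'` is absolutely
irreducible on `G_{BK'}`, then there is `ρ` over `K` attached to `P` (and more: see `Patches`).
-/

set_option autoImplicit false

namespace Pool.Agent.Results.MP_976e2b_nt.PatchingDisjointFields

open Pool.Agent.W401.Cheb Pool.Agent.W2helper17.PF.S

/-- Representations patch if they are given over a finite Galois extension `K'` and over subfields `L i`
of a finite extension `B` with `B ∩ K' = K`, such that every element of `G_K` is in `G_{K'}` or fixes a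
conjugate of some `L i`. In particular `p + 2` cyclic extensions of prime degree `p` suffice: the `p + 1`
intermediate fields of a Galois extension `B / K` with group `(Z/p)²`, and `K'`. -/
theorem result (K : Type) [Field K] [NumberField K] :
    (∀ (K' B : Ext K) (ι : Type) (L : ι → Ext K), IsGal K' → FiniteDimensional K B →
      B ⊓ K' = ⊥ → Nonempty ι → (∀ i, L i ≤ B) →
      (∀ σ : GK K, Fixes σ K' ∨ ∃ i, FixesConj σ (L i)) → Patch K' B L) ∧
    ∀ (p : ℕ) (K' B : Ext K), p.Prime → IsGal K' → IsGal B → deg B = p ^ 2 →
      (∀ σ : GK K, Fixes (σ ^ p) B) → B ⊓ K' = ⊥ →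
      Patch K' B (fun L : {L : Ext K // L ≤ B ∧ deg L = p} => (L : Ext K)) := by
  refine ⟨?_, ?_⟩
  · rintro K' B ι L ⟨_, _⟩ _ hBK _ hL hcov
    exact patch_of (Pool.Agent.W2helper17.PF.patch_fields K K' B hBK L hL hcov)
  · rintro p K' B hpp ⟨_, _⟩ ⟨_, _⟩ hB hp hBK
    exact patch_of (Pool.Agent.W2helper17.PF.patch_pp K p hpp K' B hB hp hBK)

end Pool.Agent.Results.MP_976e2b_nt.PatchingDisjointFields
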